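import Mathlib

set_option autoImplicit false

namespace Pool.Agent.Results.MP_a85856_gt.Grid

open Finset Pointwise

/-- The `ℓ_p` norm of a vector in `ℝ^m`. -/
noncomputable def lp {m : ℕ} (p : ℝ) (x : Fin m → ℝ) : ℝ := (∑ i, |x i| ^ p) ^ (1 / p)

/-- Circumradius of `K` with respect to the `ℓ_p` unit ball. -/
noncomputable def R {n : ℕ} (p : ℝ) (K : Set (Fin n → ℝ)) : ℝ :=
  sInf {r | 0 ≤ r ∧ ∃ t : Fin n → ℝ, K ⊆ t +ᵥ r • {b : Fin n → ℝ | lp p b ≤ 1}}

lemma lp_le {m : ℕ} (b : Fin m → ℝ) : lp 3 b ≤ 1 ↔ ∑ i, |b i| ^ 3 ≤ 1 := by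
  have e : ∀ i, |b i| ^ (3 : ℝ) = |b i| ^ 3 := fun i => by
    exact_mod_cast Real.rpow_natCast |b i| 3
  have h0 : 0 ≤ ∑ i, |b i| ^ 3 := sum_nonneg fun i _ => by positivity
  simp only [lp, e]
  constructor
  · intro h
    by_contra hh
    push Not at hh
    have := Real.one_lt_rpow hh (by norm_num : (0 : ℝ) < 1 / 3)
    linarith
  · intro h
    exact Real.rpow_le_one h0 h (by norm_num)

lemma cvx {m : ℕ} (t : Fin m → ℝ) (c : ℝ) : Convex ℝ {x : Fin m → ℝ | ∑ i, |x i - t i| ^ 3 ≤ c} := by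
  intro x hx y hy a b ha hb hab
  have hx' : ∑ i, |x i - t i| ^ 3 ≤ c := hx
  have hy' : ∑ i, |y i - t i| ^ 3 ≤ c := hy
  show ∑ i, |(a • x + b • y) i - t i| ^ 3 ≤ c
  have h : ∀ i, |(a • x + b • y) i - t i| ^ 3 ≤ a * |x i - t i| ^ 3 + b * |y i - t i| ^ 3 := by
    intro i
    have e : (a • x + b • y) i - t i = a * (x i - t i) + b * (y i - t i) := by
      simp only [Pi.add_apply, Pi.smul_apply, smul_eq_mul]
      linear_combination (t i) * hab
    have h1 : |(a • x + b • y) i - t i| ≤ a * |x i - t i| + b * |y i - t i| := by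
      rw [e]
      refine (abs_add_le _ _).trans ?_
      rw [abs_mul, abs_mul, abs_of_nonneg ha, abs_of_nonneg hb]
    have h2 := (convexOn_pow (𝕜 := ℝ) 3).2 (Set.mem_Ici.2 (abs_nonneg (x i - t i)))
      (Set.mem_Ici.2 (abs_nonneg (y i - t i))) ha hb hab
    simp only [smul_eq_mul] at h2
    exact (pow_le_pow_left₀ (abs_nonneg _) h1 3).trans h2
  calc _ ≤ ∑ i, (a * |x i - t i| ^ 3 + b * |y i - t i| ^ 3) := sum_le_sum fun i _ => h i
    _ = a * ∑ i, |x i - t i| ^ 3 + b * ∑ i, |y i - t i| ^ 3 := by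
      rw [sum_add_distrib, mul_sum, mul_sum]
    _ ≤ a * c + b * c := by gcongr
    _ = c := by rw [← add_mul, hab, one_mul]

lemma mem_of {m : ℕ} (S : Set (Fin m → ℝ)) (t : Fin m → ℝ) (r : ℝ) (hr : 0 < r)
    (h : ∀ x ∈ S, ∑ i, |x i - t i| ^ 3 ≤ r ^ 3) :
    convexHull ℝ S ⊆ t +ᵥ r • {b | lp 3 b ≤ 1} := by
  intro x hx
  have h1 : ∑ i, |x i - t i| ^ 3 ≤ r ^ 3 := convexHull_min h (cvx t _) hx
  refine ⟨x - t, ⟨r⁻¹ • (x - t), ?_, ?_⟩, by simp⟩
  · show lp 3 _ ≤ 1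
    rw [lp_le]
    have : ∀ i, |(r⁻¹ • (x - t)) i| ^ 3 = (r ^ 3)⁻¹ * |x i - t i| ^ 3 := by
      intro i
      simp only [Pi.smul_apply, Pi.sub_apply, smul_eq_mul, abs_mul, abs_of_pos (inv_pos.2 hr),
        mul_pow, inv_pow]
    simp only [this, ← mul_sum]
    rw [inv_mul_le_iff₀ (by positivity)]
    simpa using h1
  · simp [smul_smul, hr.ne']

lemma of_mem {m : ℕ} {x t : Fin m → ℝ} {r : ℝ} (hr : 0 ≤ r)
    (h : x ∈ t +ᵥ r • {b : Fin m → ℝ | lp 3 b ≤ 1}) : ∑ i, |x i - t i| ^ 3 ≤ r ^ 3 := by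
  obtain ⟨_, ⟨b, hb, rfl⟩, rfl⟩ := h
  have hb' := (lp_le b).1 hb
  have : ∀ i, |(t +ᵥ r • b) i - t i| ^ 3 = r ^ 3 * |b i| ^ 3 := by
    intro i
    simp [abs_mul, abs_of_nonneg hr, mul_pow]
  simp only [this, ← mul_sum]
  exact mul_le_of_le_one_right (by positivity) hb'

lemma sum_ite (j : Fin 37) (u v : ℝ) : ∑ b : Fin 37, (if b = j then u else v) = u + 36 * v := by
  have : ∀ b : Fin 37, (if b = j then u else v) = v + (if b = j then u - v else 0) := by
    intro b; split_ifs <;> ring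
  simp only [this, sum_add_distrib, sum_ite_eq', mem_univ, if_true]
  simp
  ring

lemma scal (t : ℝ) : 36 / 49 ≤ |1 - t| ^ 3 + 36 * |0 - t| ^ 3 := by
  have h1 : 1 ≤ |1 - t| + |0 - t| := by
    have := abs_sub (1 - t) (0 - t)
    simpa using this
  have ha := abs_nonneg (1 - t)
  have hb := abs_nonneg (0 - t)
  nlinarith [mul_nonneg (sq_nonneg (|1 - t| - 6 / 7)) (by linarith : 0 ≤ |1 - t| + 12 / 7),
    mul_nonneg (sq_nonneg (|0 - t| - 1 / 7)) (by linarith : 0 ≤ |0 - t| + 2 / 7)]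

lemma lower (π : Fin (37 * 37) → Fin 37) :
    3 ≤ R 3 (convexHull ℝ (Set.range fun (i : Fin 37) (k : Fin (37 * 37)) =>
      if i = π k then (1 : ℝ) else 0)) := by
  apply le_csInf
  · refine ⟨37, by norm_num, 0, mem_of _ _ _ (by norm_num) ?_⟩
    rintro _ ⟨i, rfl⟩
    calc _ ≤ ∑ _k : Fin (37 * 37), (1 : ℝ) := sum_le_sum fun k _ => by
          simp only [Pi.zero_apply]; split_ifs <;> simp
      _ ≤ _ := by simp; norm_num
  · rintro r ⟨hr, t, ht⟩
    have h1 : ∀ i : Fin 37, ∑ k, |(if i = π k then (1 : ℝ) else 0) - t k| ^ 3 ≤ r ^ 3 :=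
      fun i => of_mem hr (ht (subset_convexHull ℝ _ ⟨i, rfl⟩))
    have h2 : ∑ i : Fin 37, ∑ k, |(if i = π k then (1 : ℝ) else 0) - t k| ^ 3 ≤ 37 * r ^ 3 := by
      calc _ ≤ ∑ _i : Fin 37, r ^ 3 := sum_le_sum fun i _ => h1 i
        _ = _ := by simp
    rw [sum_comm] at h2
    have h3 : ∀ k, 36 / 49 ≤ ∑ i : Fin 37, |(if i = π k then (1 : ℝ) else 0) - t k| ^ 3 := by
      intro k
      have : ∀ i : Fin 37, |(if i = π k then (1 : ℝ) else 0) - t k| ^ 3
          = if i = π k then |1 - t k| ^ 3 else |0 - t k| ^ 3 := by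
        intro i; split_ifs <;> rfl
      simp only [this]
      rw [sum_ite]
      exact scal _
    have h4 : ∑ _k : Fin (37 * 37), (36 / 49 : ℝ) ≤ 37 * r ^ 3 :=
      (sum_le_sum fun k _ => h3 k).trans h2
    simp at h4
    apply le_of_pow_le_pow_left₀ (n := 3) (by norm_num) hr
    norm_num at h4 ⊢
    linarith

theorem result : ∃ (n : ℕ) (K L : Set (Fin n → ℝ)), 1 ≤ n ∧
    (K.Nonempty ∧ IsCompact K ∧ Convex ℝ K) ∧ (L.Nonempty ∧ IsCompact L ∧ Convex ℝ L) ∧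
    R 3 (K + L) < lp 3 ![R 3 K, R 3 L] := by
  let e : Fin 37 × Fin 37 ≃ Fin (37 * 37) := finProdFinEquiv
  have hb : ∀ π : Fin (37 * 37) → Fin 37, let K := convexHull ℝ (Set.range fun (i : Fin 37)
      (k : Fin (37 * 37)) => if i = π k then (1 : ℝ) else 0)
      K.Nonempty ∧ IsCompact K ∧ Convex ℝ K := fun π =>
    ⟨⟨_, subset_convexHull ℝ _ ⟨0, rfl⟩⟩, (Set.finite_range _).isCompact_convexHull ℝ,
      convex_convexHull ℝ _⟩
  refine ⟨37 * 37, _, _, by norm_num, hb fun k => (e.symm k).1, hb fun k => (e.symm k).2, ?_⟩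
  have h1 := lower fun k => (e.symm k).1
  have h2 := lower fun k => (e.symm k).2
  rw [← convexHull_add]
  refine lt_of_le_of_lt (b := 3.76) ?_ ?_
  · apply csInf_le ⟨0, fun r hr => hr.1⟩
    refine ⟨by norm_num, fun _ => 1 / 5, mem_of _ _ _ (by norm_num) ?_⟩
    rintro _ ⟨_, ⟨i, rfl⟩, _, ⟨j, rfl⟩, rfl⟩
    rw [← Equiv.sum_comp e, Fintype.sum_prod_type]
    simp only [Pi.add_apply, Equiv.symm_apply_apply]
    have : ∀ a b : Fin 37, |(if i = a then (1 : ℝ) else 0) + (if j = b then 1 else 0) - 1 / 5| ^ 3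
        = if b = j then (if a = i then 729 / 125 else 64 / 125)
          else (if a = i then 64 / 125 else 1 / 125) := by
      intro a b
      by_cases ha : a = i <;> by_cases hb : b = j
      · simp only [ha, hb, if_true]; norm_num [abs_of_pos]
      · simp only [ha, hb, if_true, if_false, Ne.symm hb]; norm_num [abs_of_pos]
      · simp only [ha, hb, if_true, if_false, Ne.symm ha]; norm_num [abs_of_pos]
      · simp only [ha, hb, if_false, Ne.symm ha, Ne.symm hb]; norm_num [abs_of_pos]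
    simp only [this, sum_ite, sum_add_distrib, ← mul_sum]
    norm_num
  · generalize R 3 _ = a at h1 ⊢
    generalize R 3 _ = b at h2 ⊢
    have e3 : ∀ x : ℝ, x ^ (3 : ℝ) = x ^ 3 := fun x => by exact_mod_cast Real.rpow_natCast x 3
    simp only [lp, Fin.sum_univ_two, Matrix.cons_val_zero, Matrix.cons_val_one, e3]
    rw [abs_of_pos (by linarith), abs_of_pos (by linarith)]
    have ha : 3 ^ 3 ≤ a ^ 3 := pow_le_pow_left₀ (by norm_num) h1 3
    have hb : 3 ^ 3 ≤ b ^ 3 := pow_le_pow_left₀ (by norm_num) h2 3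
    rw [one_div, Real.lt_rpow_inv_iff_of_pos (by norm_num) (by linarith) (by norm_num), e3]
    norm_num
    linarith

end Pool.Agent.Results.MP_a85856_gt.Grid
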